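import Pool.Agent.H813.CL.Ex3

/-!
# A superstable continuous theory without non-trivial d-definable sets over the empty set

Let `M` be the unit interval `[0,1]` with the discrete (`{0,1}`-valued) metric and the unary predicate
`x ↦ x`, and `T` the theory of `M`. In a model `N` of `T` the metric is discrete and the predicate
takes a dense set of values, even outside of a given finite set. So by induction (back and forth)
the value of a formula at a tuple is determined by the equalities between the elements of the tuple
and by the values of the predicate, and depends on these values in a uniformly continuous way.

* So `T` is complete, every formula is stable, and there are at most `λ` complete types over a set of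
  `λ` parameters if `λ ≥ 2^ℵ₀`.
* The distance from a set `D` has only the values `0`, `1`. If it is a definable predicate over the
  empty set (in one variable) then it factors through a locally constant function on `[0,1]`, so
  `D` is empty or everything.
* There are `2^ℵ₀` types over the empty set in one variable, and `p(M)` is a singleton for each of
  them, so `p(M)` is not an intersection of d-definable sets.
-/

set_option autoImplicit false

namespace Pool.Agent.Results.MP_cc3859_lc.StableNotEnough

open Pool.Agent.H813.CL

/-- There is a complete stable continuous theory (in a finite signature) which does not have enough
d-definable sets: it has a model `M` and a set `A ⊆ M` of parameters and a complete type `p` over `A`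
such that `p(M)` is not an intersection of sets d-definable in `M` over `A`. The theory is even
superstable: for every `λ ≥ 2^ℵ₀` there are at most `λ` complete types over `λ` parameters. In every
model the only d-definable sets over the empty set (in one variable) are the empty set and
the whole model. -/
theorem result : ∃ (L : Sig) (T : Theory L), Finite L.Fn ∧ Finite L.Rel ∧ T.Complete ∧ T.Stable ∧
    (∀ lam : Cardinal.{0}, Cardinal.continuum ≤ lam → T.TypeBound lam) ∧
    (∀ N : Str.{0} L, N.Models T → ∀ D : Set (Fin 1 → N.carrier), N.DefSet ∅ D →
      D = ∅ ∨ D = Set.univ) ∧
    ¬ T.EnoughDDefinable :=
  ⟨Ex.Lx, Ex.T0, inferInstanceAs (Finite Empty), inferInstanceAs (Finite Unit), Ex.complete_T0,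
    Ex.stable_T0, Ex.typeBound_T0, fun _ hN _ hD => Ex.trivial_defSet hN hD, Ex.not_enough⟩

end Pool.Agent.Results.MP_cc3859_lc.StableNotEnough
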